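import Pool.Agent.Helper78.KD.VarLim
import Pool.Agent.Helper78.KD.Near
import Pool.Agent.Helper67.KD.H2
import Pool.Agent.Helper59.GP.Exp
import Pool.Agent.Helper95.KX.SMeas
import Pool.Agent.Helper64.KX.MeasAE
import Pool.Agent.Helper81.KX.X4p
import Pool.Agent.Helper4.KX.X5b
import Pool.Agent.Helper31.KX.DiscFa
import Pool.Agent.Helper78.KX.Conv
import Pool.Agent.Helper9.KX.X1c
import Pool.Agent.Helper95.KX.Closure3
import Pool.Agent.Helper34.PM.Main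
import Pool.Agent.Helper94.KD.G1

/-!
# Multiples of geometric progressions: dimensions of the deviation sets

For the sequences `ξ θ ^ n` the sets of the `ξ` with discrepancy at least `δ` have the dimension `1 - I(δ) / log θ` in every
open set.  For every real `θ > 1` the rate is `δ ^ 2 / (2 V)` up to a factor `1 + o(1)` as `δ → 0`, where `V` is the
largest limit variance of an arc (the square of the constant in Fukuyama's law of the iterated logarithm).  For `θ = α e ^ r`,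
`θ = α π ^ r`, and for almost every `θ`, it is the rate of independent uniform variables, up to errors `O(δ ^ k)` for all
`k` and for all shifts.  The same for the means of functions and for Weyl sums.
-/

set_option autoImplicit false

namespace Pool.Agent.Results.MP_9056e9_nt.GeometricProgressions

open MeasureTheory Set Filter Topology

/-- discrepancy of the first `N` terms modulo one -/
noncomputable def disc (u : ℕ → ℝ) (N : ℕ) : ℝ :=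
  sSup {r : ℝ | ∃ α β : ℝ, 0 ≤ α ∧ α < β ∧ β ≤ 1 ∧ r =
    |(((Finset.range N).filter (fun n => α ≤ Int.fract (u n) ∧ Int.fract (u n) < β)).card : ℝ) / N - (β - α)|}

/-- mean of the values of `φ` at the first `N` terms -/
noncomputable def mean (φ : ℝ → ℝ) (u : ℕ → ℝ) (N : ℕ) : ℝ := (∑ n ∈ Finset.range N, φ (u n)) / N

/-- normalised Weyl sum of the first `N` terms -/
noncomputable def weyl (u : ℕ → ℝ) (N : ℕ) : ℝ :=
  ‖∑ n ∈ Finset.range N, Complex.exp (2 * Real.pi * Complex.I * (u n : ℝ))‖ / N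

/-- the deviation sets of the functional `F` for the sequences `ξ θ ^ (n + 1) + s n`: in every open set the `ξ` with lower limit
at least `δ` have Hausdorff dimension at least `1 - c₁ / log θ`, and all the `ξ` with upper limit at least `δ` have Hausdorff
dimension at most `1 - c₂ / log θ` -/
def Dims (θ : ℝ) (s : ℕ → ℝ) (F : (ℕ → ℝ) → ℕ → ℝ) (δ c₁ c₂ : ℝ) : Prop :=
  (∀ O : Set ℝ, IsOpen O → O.Nonempty → ENNReal.ofReal (1 - c₁ / Real.log θ) ≤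
      dimH {ξ | ξ ∈ O ∧ δ ≤ liminf (F fun n => ξ * θ ^ (n + 1) + s n) atTop}) ∧
    dimH {ξ | δ ≤ limsup (F fun n => ξ * θ ^ (n + 1) + s n) atTop} ≤ ENNReal.ofReal (1 - c₂ / Real.log θ)

/-- the deviation sets for `ξ θ ^ (n + 1)` have the rate `κ δ ^ 2` up to a factor `1 + o(1)` as `δ → 0` -/
def Leading (θ κ : ℝ) (F : (ℕ → ℝ) → ℕ → ℝ) : Prop :=
  ∀ ε : ℝ, 0 < ε → ∃ δ₀ : ℝ, 0 < δ₀ ∧ ∀ δ : ℝ, 0 < δ → δ ≤ δ₀ →
    Dims θ (fun _ => 0) F δ ((1 + ε) * (κ * δ ^ 2)) ((1 - ε) * (κ * δ ^ 2))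

/-- the deviation sets for `ξ θ ^ (n + 1) + s n` have the rate `I δ` up to errors `C δ ^ k`, for all `k`, for all shifts `s` -/
def AllOrders (θ : ℝ) (I : ℝ → ℝ) (F : (ℕ → ℝ) → ℕ → ℝ) : Prop :=
  ∀ k : ℕ, ∃ C δ₀ : ℝ, 0 < C ∧ 0 < δ₀ ∧ ∀ δ : ℝ, 0 < δ → δ ≤ δ₀ → ∀ s : ℕ → ℝ,
    Dims θ s F δ (I δ + C * δ ^ k) (I δ - C * δ ^ k)

/-- `σ` is the limit variance of the sums of `φ (ξ θ ^ n)`, `ξ` uniform on `[0,1]` -/
def VarLim (θ : ℝ) (φ : ℝ → ℝ) (σ : ℝ) : Prop :=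
  Tendsto (fun N : ℕ => (∫ ξ in (0 : ℝ)..1, (∑ n ∈ Finset.range N, φ (ξ * θ ^ (n + 1))) ^ 2) / N) atTop (𝓝 σ)

/-- centred indicator of the arc `[α, β)` -/
noncomputable def chi (α β t : ℝ) : ℝ := (if α ≤ Int.fract t ∧ Int.fract t < β then 1 else 0) - (β - α)

/-- a measure for the values at `θ` of integer polynomials with few terms: for every `k` it is polynomial in the degree
and in the logarithm of the height -/
def SparseMeasure (θ : ℝ) : Prop :=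
  ∀ k : ℕ, ∃ (A : ℕ) (C : ℝ), 0 < C ∧ ∀ (d H : ℕ) (P : Polynomial ℤ), P ≠ 0 → P.natDegree ≤ d →
    P.support.card ≤ k + 1 → (∀ i, |P.coeff i| ≤ H) →
    Real.exp (-(C * ((d : ℝ) + Real.log (1 + H)) ^ A)) ≤ |Polynomial.aeval θ P|

/-- Cramér's rate function of `φ (U)`, `U` uniform on `[0,1]` -/
noncomputable def rate (φ : ℝ → ℝ) (δ : ℝ) : ℝ :=
  ⨆ t : ℝ, (t * δ - Real.log (∫ x in (0 : ℝ)..1, Real.exp (t * φ x)))

/-- the rate of the discrepancy of independent uniform variables: the infimum over `q` of the relative entropy of the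
Bernoulli laws with the parameters `q + δ` and `q` -/
noncomputable def rateD (δ : ℝ) : ℝ :=
  sInf ((fun q => (q + δ) * Real.log ((q + δ) / q) + (1 - (q + δ)) * Real.log ((1 - (q + δ)) / (1 - q))) '' Ioo 0 (1 - δ))

open Pool.Agent.Helper78.KD (sig SigSq var_tendsto theta_upper theta_lower near_weyl)
open Pool.Agent.Helper67.KD (SigSq_ge SigSq_irr SigSq_le_rat SigSq_odd SigSq_even SigSq_two)
open Pool.Agent.Helper78.KX (FewAll upper_few lower_few trig_gp)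
open Pool.Agent.Helper9.KX (fewAll_of_smeas)

theorem varLim_unique {θ : ℝ} {φ : ℝ → ℝ} {σ σ' : ℝ} (h : VarLim θ φ σ) (h' : VarLim θ φ σ') : σ = σ' :=
  tendsto_nhds_unique h h'

theorem varLim_chi {θ : ℝ} (hθ : 1 < θ) {α β : ℝ} (h0 : 0 ≤ α) (h1 : α < β) (h2 : β ≤ 1) :
    VarLim θ (chi α β) (sig θ (Pool.Agent.Helper78.KD.chi α β)) :=
  var_tendsto hθ (Pool.Agent.Helper31.KD.chi_bv h0 h1 h2)

theorem set_eq {θ : ℝ} (hθ : 1 < θ) : {σ : ℝ | ∃ α β : ℝ, 0 ≤ α ∧ α < β ∧ β ≤ 1 ∧ VarLim θ (chi α β) σ} =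
    {r : ℝ | ∃ α β : ℝ, 0 ≤ α ∧ α < β ∧ β ≤ 1 ∧ r = sig θ (Pool.Agent.Helper78.KD.chi α β)} := by
  ext σ
  constructor
  · rintro ⟨α, β, h0, h1, h2, h⟩
    exact ⟨α, β, h0, h1, h2, varLim_unique h (varLim_chi hθ h0 h1 h2)⟩
  · rintro ⟨α, β, h0, h1, h2, rfl⟩
    exact ⟨α, β, h0, h1, h2, varLim_chi hθ h0 h1 h2⟩

theorem lub {θ : ℝ} (hθ : 1 < θ) :
    IsLUB {σ : ℝ | ∃ α β : ℝ, 0 ≤ α ∧ α < β ∧ β ≤ 1 ∧ VarLim θ (chi α β) σ} (SigSq θ) := by
  rw [set_eq hθ]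
  exact isLUB_csSup ⟨_, 0, 1, le_rfl, zero_lt_one, le_rfl, rfl⟩ (Pool.Agent.Helper78.KD.SigSq_bdd hθ)

/-- from bounds with `ε ≤ 1` -/
theorem leading_of {θ κ : ℝ} (hθ : 1 < θ) (hκ : 0 ≤ κ) {F : (ℕ → ℝ) → ℕ → ℝ}
    (hup : ∀ ε : ℝ, 0 < ε → ε ≤ 1 → ∃ δ₀ : ℝ, 0 < δ₀ ∧ ∀ δ : ℝ, 0 < δ → δ ≤ δ₀ →
      dimH {ξ | δ ≤ limsup (F fun n => ξ * θ ^ (n + 1)) atTop} ≤ ENNReal.ofReal (1 - (1 - ε) * (κ * δ ^ 2) / Real.log θ))
    (hlo : ∀ ε : ℝ, 0 < ε → ε ≤ 1 → ∃ δ₀ : ℝ, 0 < δ₀ ∧ ∀ δ : ℝ, 0 < δ → δ ≤ δ₀ → ∀ O : Set ℝ, IsOpen O → O.Nonempty →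
      ENNReal.ofReal (1 - (1 + ε) * (κ * δ ^ 2) / Real.log θ) ≤
        dimH {ξ | ξ ∈ O ∧ δ ≤ liminf (F fun n => ξ * θ ^ (n + 1)) atTop}) :
    Leading θ κ F := by
  intro ε hε
  have hl := Real.log_pos hθ
  obtain ⟨δ₁, h1, hup'⟩ := hup (min ε 1) (by positivity) (min_le_right _ _)
  obtain ⟨δ₂, h2, hlo'⟩ := hlo (min ε 1) (by positivity) (min_le_right _ _)
  refine ⟨min δ₁ δ₂, by positivity, fun δ hδ hδδ => ⟨fun O hO hne => ?_, ?_⟩⟩
  · simp only [add_zero]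
    refine (ENNReal.ofReal_le_ofReal ?_).trans (hlo' δ hδ (hδδ.trans (min_le_right _ _)) O hO hne)
    have h3 : (1 + min ε 1) * (κ * δ ^ 2) / Real.log θ ≤ (1 + ε) * (κ * δ ^ 2) / Real.log θ := by
      have := min_le_left ε 1
      gcongr
    linarith
  · simp only [add_zero]
    refine (hup' δ hδ (hδδ.trans (min_le_left _ _))).trans (ENNReal.ofReal_le_ofReal ?_)
    have h3 : (1 - ε) * (κ * δ ^ 2) / Real.log θ ≤ (1 - min ε 1) * (κ * δ ^ 2) / Real.log θ := by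
      have := min_le_left ε 1
      gcongr
    linarith

theorem leading_disc {θ : ℝ} (hθ : 1 < θ) : Leading θ (1 / (2 * SigSq θ)) disc := by
  have hl := Real.log_pos hθ
  have hS : 0 < SigSq θ := lt_of_lt_of_le (by norm_num) (SigSq_ge hθ)
  refine leading_of hθ (by positivity) (fun ε h0 h1 => ?_) (fun ε h0 h1 => ?_)
  · obtain ⟨δ₀, hδ₀, h⟩ := theta_upper hθ h0 h1
    refine ⟨δ₀, hδ₀, fun δ hδ hδδ => (h δ hδ hδδ).trans_eq ?_⟩
    congr 1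
    field_simp
  · obtain ⟨δ₀, hδ₀, h⟩ := theta_lower hθ h0 h1
    refine ⟨δ₀, hδ₀, fun δ hδ hδδ O hO hne => le_of_eq_of_le ?_ (h δ hδ hδδ O hO hne)⟩
    congr 1
    field_simp

theorem leading_weyl {θ : ℝ} (hθ : 1 < θ) : Leading θ 1 weyl := by
  intro ε hε
  obtain ⟨δ₀, h0, ρ, -, h⟩ := near_weyl hθ ε hε
  refine ⟨δ₀, h0, fun δ hδ hδδ => ⟨fun O hO hne => ?_, ?_⟩⟩
  · have h1 := (h O (fun n x => x * θ ^ (n + 1) + 0) ⟨hO, hne, fun _ => 0, Or.inr rfl⟩ δ hδ hδδ).1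
    refine le_of_eq_of_le ?_ h1
    congr 1
    ring
  · have h1 := (h univ (fun n x => x * θ ^ (n + 1) + 0) ⟨isOpen_univ, univ_nonempty, fun _ => 0, Or.inr rfl⟩ δ hδ hδδ).2
    simp only [mem_univ, true_and] at h1
    refine le_of_le_of_eq h1 ?_
    congr 1
    ring

theorem leading_mean {θ : ℝ} (hθ : 1 < θ) {φ : ℝ → ℝ} (hper : ∀ t, φ (t + 1) = φ t)
    (hbv : BoundedVariationOn φ (Icc 0 1)) (hmean : ∫ t in (0 : ℝ)..1, φ t = 0) {σ : ℝ} (hσ : VarLim θ φ σ)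
    (hσ0 : 0 < σ) : Leading θ (1 / (2 * σ)) (mean φ) := by
  have hl := Real.log_pos hθ
  intro ε hε
  obtain ⟨δ₀, hδ₀, h⟩ := Pool.Agent.Helper94.KD.theta_bv hθ hper hbv hmean hσ hσ0 hε
  refine ⟨δ₀, hδ₀, fun δ hδ hδδ => ⟨fun O hO hne => ?_, ?_⟩⟩
  · simp only [add_zero]
    refine le_of_eq_of_le ?_ ((h δ hδ hδδ).1 O hO hne)
    congr 1
    field_simp
  · simp only [add_zero]
    refine le_of_le_of_eq (h δ hδ hδδ).2 ?_
    congr 1
    field_simp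

theorem all_disc {θ : ℝ} (hθ : 1 < θ) (hm : SparseMeasure θ) : AllOrders θ rateD disc :=
  fun k => Pool.Agent.Helper31.KX.disc_fa_of hθ (fewAll_of_smeas hθ hm) (fun A k hA => upper_few hθ A k hA)
    (fun A k hA => lower_few hθ A k hA) k

theorem all_mean {θ : ℝ} (hθ : 1 < θ) (hm : SparseMeasure θ) {φ : ℝ → ℝ} {K : ℝ} (hper : ∀ t, φ (t + 1) = φ t)
    (hlip : ∀ s t, |φ s - φ t| ≤ K * |s - t|) (hmean : ∫ t in (0 : ℝ)..1, φ t = 0) (hne : ∃ t, φ t ≠ 0) :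
    AllOrders θ (rate φ) (mean φ) :=
  fun k => Pool.Agent.Helper4.KX.mean_fa_of hθ (fewAll_of_smeas hθ hm) (fun A k hA => upper_few hθ A k hA)
    (fun A k hA => lower_few hθ A k hA) hper hlip hmean hne k

theorem all_weyl {θ : ℝ} (hθ : 1 < θ) (htr : Transcendental ℤ θ) :
    AllOrders θ (rate fun t => Real.cos (2 * Real.pi * t)) weyl :=
  fun k => Pool.Agent.Helper4.KX.weyl_fa_of hθ htr (fun A k hA => upper_few hθ A k hA)
    (fun A k hA => lower_few hθ A k hA) k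

theorem all_trig {θ : ℝ} (hθ : 1 < θ) (htr : Transcendental ℤ θ) {φ : ℝ → ℝ} {S : Finset ℤ} {z : ℤ → ℂ} (hS : 0 ∉ S)
    (hφ : ∀ t : ℝ, (φ t : ℂ) = ∑ h ∈ S, z h * Complex.exp (2 * Real.pi * Complex.I * (h * t : ℝ))) (hne : ∃ t, φ t ≠ 0) :
    AllOrders θ (rate φ) (mean φ) := by
  obtain ⟨H, c, h1, h2⟩ := trig_gp hS hφ
  exact fun k => Pool.Agent.Helper4.KX.trig_fa_of hθ htr (fun A k hA => upper_few hθ A k hA)
    (fun A k hA => lower_few hθ A k hA) H c φ h1 h2 hne k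

theorem meas_pi : SparseMeasure Real.pi := by
  obtain ⟨A, C, hC, h⟩ := Pool.Agent.Helper34.PM.meas_pi
  exact fun k => ⟨A, C, hC, fun d H P hP hd _ hH => h d H P hP hd hH⟩

/-- a number with a sparse measure is transcendental -/
theorem trans_of {θ : ℝ} (hm : SparseMeasure θ) : Transcendental ℤ θ := by
  rintro ⟨P, hP, h0⟩
  obtain ⟨A, C, hC, h⟩ := hm P.support.card
  obtain ⟨H, hH⟩ : ∃ H : ℕ, ∀ i, |P.coeff i| ≤ H := by
    refine ⟨∑ i ∈ P.support, (P.coeff i).natAbs, fun i => ?_⟩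
    by_cases hi : i ∈ P.support
    · rw [Int.abs_eq_natAbs]
      exact_mod_cast Finset.single_le_sum (f := fun i => (P.coeff i).natAbs) (fun j _ => Nat.zero_le _) hi
    · rw [Polynomial.notMem_support_iff.1 hi, abs_zero]
      positivity
  have h1 := h P.natDegree H P hP le_rfl (Nat.le_succ _) hH
  rw [h0, abs_zero] at h1
  exact absurd h1 (not_le.2 (Real.exp_pos _))

theorem result :
    (∀ θ : ℝ, 1 < θ →
      -- (1) every `θ`, leading order.  Discrepancy: `V` is the largest limit variance of an arc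
      ((∃ V : ℝ, IsLUB {σ : ℝ | ∃ α β : ℝ, 0 ≤ α ∧ α < β ∧ β ≤ 1 ∧ VarLim θ (chi α β) σ} V ∧
          Leading θ (1 / (2 * V)) disc ∧ 1 / 4 ≤ V ∧
          ((∀ k : ℕ, 1 ≤ k → Irrational (θ ^ k)) → V = 1 / 4) ∧
          ∀ r p q : ℕ, 1 ≤ r → 0 < q → Nat.Coprime p q → θ ^ r = p / q → (∀ j : ℕ, 1 ≤ j → j < r → Irrational (θ ^ j)) →
            V ≤ ((p : ℝ) * q + 1) / (4 * (p * q - 1)) ∧ (Odd p → Odd q → V = ((p : ℝ) * q + 1) / (4 * (p * q - 1))) ∧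
            (q = 1 → Even p → 4 ≤ p → V = ((p : ℝ) + 1) * p * (p - 2) / (4 * ((p : ℝ) - 1) ^ 3)) ∧
            (q = 1 → p = 2 → V = 14 / 27)) ∧
        -- means of a function of bounded variation
        (∀ φ : ℝ → ℝ, (∀ t, φ (t + 1) = φ t) → BoundedVariationOn φ (Icc 0 1) → (∫ t in (0 : ℝ)..1, φ t = 0) →
          ∃ σ : ℝ, VarLim θ φ σ ∧ 0 ≤ σ ∧ (0 < σ → Leading θ (1 / (2 * σ)) (mean φ))) ∧
        -- Weyl sums
        Leading θ 1 weyl) ∧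
      -- (2) `θ` with a sparse measure, all orders, all shifts
      (SparseMeasure θ →
        AllOrders θ rateD disc ∧
        (∀ (φ : ℝ → ℝ) (K : ℝ), (∀ t, φ (t + 1) = φ t) → (∀ s t, |φ s - φ t| ≤ K * |s - t|) →
          (∫ t in (0 : ℝ)..1, φ t = 0) → (∃ t, φ t ≠ 0) → AllOrders θ (rate φ) (mean φ)) ∧
        AllOrders θ (rate fun t => Real.cos (2 * Real.pi * t)) weyl)) ∧
    -- the `θ` of (2): `α e ^ r`, `α π ^ r`, almost every `θ`
    (∀ α : ℝ, IsAlgebraic ℤ α → α ≠ 0 → ∀ r : ℚ, r ≠ 0 →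
      SparseMeasure (α * Real.exp r) ∧ SparseMeasure (α * Real.pi ^ (r : ℝ))) ∧
    (∀ᵐ θ : ℝ, SparseMeasure θ) ∧
    -- the rate of the discrepancy in (2)
    ∀ δ : ℝ, 0 < δ → δ ≤ 1 / 8 → |rateD δ - (2 * δ ^ 2 + 4 / 9 * δ ^ 4)| ≤ 16384 * δ ^ 6 := by
  refine ⟨fun θ hθ => ⟨⟨⟨SigSq θ, lub hθ, leading_disc hθ, SigSq_ge hθ, SigSq_irr hθ,
    fun r p q hr hq hpq h hirr => ⟨SigSq_le_rat hθ hr hq hpq h hirr, SigSq_odd hθ hr hq hpq h hirr, fun hq1 hp hp4 => ?_,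
      fun hq1 hp => ?_⟩⟩, fun φ hper hbv hmean => ?_, leading_weyl hθ⟩,
    fun hm => ⟨all_disc hθ hm, fun φ K hper hlip hmean hne => all_mean hθ hm hper hlip hmean hne,
      all_weyl hθ (trans_of hm)⟩⟩,
    fun α hα h0 r hr => ⟨Pool.Agent.Helper95.KX.smeas_exp hα h0 hr,
      Pool.Agent.Helper95.KX.smeas_class Real.pi_pos meas_pi hα h0 hr⟩, Pool.Agent.Helper64.KX.smeas_ae,
    fun δ h0 h1 => Pool.Agent.Helper59.GP.rateD_exp h0 h1⟩
  · subst hq1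
    exact SigSq_even hθ hr (by rw [h]; simp) hirr hp hp4
  · subst hq1 hp
    exact SigSq_two hθ hr (by rw [h]; simp) hirr
  · obtain ⟨σ, h0, h⟩ := Pool.Agent.Helper94.KD.var_exists hθ hper hbv hmean
    exact ⟨σ, h, h0, fun hσ => leading_mean hθ hper hbv hmean h hσ⟩

end Pool.Agent.Results.MP_9056e9_nt.GeometricProgressions
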