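import Pool.Agent.Helper59.GP.Exp
import Pool.Agent.Helper95.KX.SMeas
import Pool.Agent.Helper64.KX.MeasAE
import Pool.Agent.Helper81.KX.X4p
import Pool.Agent.Helper4.KX.X5b
import Pool.Agent.Helper31.KX.DiscFa
import Pool.Agent.Helper78.KX.Conv
import Pool.Agent.Helper9.KX.X1c
import Pool.Agent.Helper95.KX.Closure3
import Pool.Agent.Helper34.PM.Main

/-!
# Multiples of geometric progressions: dimensions of the deviation sets to all orders

For the sequences `ξ θ ^ n + s n`, `θ = e` or any `θ > 1` with a measure for sparse integer polynomials, the sets of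
the `ξ` with discrepancy at least `δ` have the codimension `I(δ) / log θ` up to errors `O(δ ^ k)` for all `k`, where `I` is the
rate of the discrepancy of independent uniform variables; similarly for Weyl sums and means.
-/

set_option autoImplicit false

namespace Pool.Agent.Results.MP_9056e9_nt.MultiplesAllOrders

open MeasureTheory Set Filter Topology

/-- discrepancy of the first `N` terms modulo one -/
noncomputable def disc (u : ℕ → ℝ) (N : ℕ) : ℝ :=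
  sSup {r : ℝ | ∃ α β : ℝ, 0 ≤ α ∧ α < β ∧ β ≤ 1 ∧ r =
    |(((Finset.range N).filter (fun n => α ≤ Int.fract (u n) ∧ Int.fract (u n) < β)).card : ℝ) / N - (β - α)|}

/-- a measure for the values at `θ` of integer polynomials with few terms: for every `k` it is polynomial in the degree
and in the logarithm of the height -/
def SparseMeasure (θ : ℝ) : Prop :=
  ∀ k : ℕ, ∃ (A : ℕ) (C : ℝ), 0 < C ∧ ∀ (d H : ℕ) (P : Polynomial ℤ), P ≠ 0 → P.natDegree ≤ d →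
    P.support.card ≤ k + 1 → (∀ i, |P.coeff i| ≤ H) →
    Real.exp (-(C * ((d : ℝ) + Real.log (1 + H)) ^ A)) ≤ |Polynomial.aeval θ P|

/-- Cramér's rate function of `φ (U)`, `U` uniform on `[0,1]` -/
noncomputable def rate (φ : ℝ → ℝ) (δ : ℝ) : ℝ :=
  ⨆ t : ℝ, (t * δ - Real.log (∫ x in (0 : ℝ)..1, Real.exp (t * φ x)))

/-- the rate of the discrepancy of independent uniform variables, `2 δ ^ 2 + (4 / 9) δ ^ 4 + O(δ ^ 6)`: the
infimum over `q` of the relative entropy of the Bernoulli laws with the parameters `q + δ` and `q` -/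
noncomputable def rateD (δ : ℝ) : ℝ :=
  sInf ((fun q => (q + δ) * Real.log ((q + δ) / q) + (1 - (q + δ)) * Real.log ((1 - (q + δ)) / (1 - q))) '' Ioo 0 (1 - δ))

/-- the codimension of the deviation sets of the functional `F` is `I δ / log θ` up to an error `C δ ^ k`, for every
`k`, for all shifts `s` -/
def CodimAll (θ : ℝ) (I : ℝ → ℝ) (F : (ℕ → ℝ) → ℕ → ℝ) : Prop :=
  ∀ k : ℕ, ∃ C δ₀ : ℝ, 0 < C ∧ 0 < δ₀ ∧ ∀ δ : ℝ, 0 < δ → δ ≤ δ₀ → ∀ s : ℕ → ℝ,
    (∀ O : Set ℝ, IsOpen O → O.Nonempty → ENNReal.ofReal (1 - (I δ + C * δ ^ k) / Real.log θ) ≤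
      dimH {ξ | ξ ∈ O ∧ δ ≤ liminf (F fun n => ξ * θ ^ (n + 1) + s n) atTop}) ∧
    dimH {ξ | δ ≤ limsup (F fun n => ξ * θ ^ (n + 1) + s n) atTop} ≤
      ENNReal.ofReal (1 - (I δ - C * δ ^ k) / Real.log θ)

open Pool.Agent.Helper78.KX (FewAll upper_few lower_few trig_gp)
open Pool.Agent.Helper9.KX (fewAll_of_smeas)

theorem codim_disc {θ : ℝ} (hθ : 1 < θ) (hm : SparseMeasure θ) : CodimAll θ rateD disc :=
  fun k => Pool.Agent.Helper31.KX.disc_fa_of hθ (fewAll_of_smeas hθ hm) (fun A k hA => upper_few hθ A k hA)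
    (fun A k hA => lower_few hθ A k hA) k

theorem codim_mean {θ : ℝ} (hθ : 1 < θ) (hm : SparseMeasure θ) {φ : ℝ → ℝ} {K : ℝ} (hper : ∀ t, φ (t + 1) = φ t)
    (hlip : ∀ s t, |φ s - φ t| ≤ K * |s - t|) (hmean : ∫ t in (0 : ℝ)..1, φ t = 0) (hne : ∃ t, φ t ≠ 0) :
    CodimAll θ (rate φ) (fun w N => (∑ n ∈ Finset.range N, φ (w n)) / N) :=
  fun k => Pool.Agent.Helper4.KX.mean_fa_of hθ (fewAll_of_smeas hθ hm) (fun A k hA => upper_few hθ A k hA)
    (fun A k hA => lower_few hθ A k hA) hper hlip hmean hne k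

theorem codim_weyl {θ : ℝ} (hθ : 1 < θ) (htr : Transcendental ℤ θ) :
    CodimAll θ (rate fun t => Real.cos (2 * Real.pi * t))
      (fun w N => ‖∑ n ∈ Finset.range N, Complex.exp (2 * Real.pi * Complex.I * (w n : ℝ))‖ / N) :=
  fun k => Pool.Agent.Helper4.KX.weyl_fa_of hθ htr (fun A k hA => upper_few hθ A k hA)
    (fun A k hA => lower_few hθ A k hA) k

theorem codim_trig {θ : ℝ} (hθ : 1 < θ) (htr : Transcendental ℤ θ) {φ : ℝ → ℝ} {S : Finset ℤ} {z : ℤ → ℂ} (hS : 0 ∉ S)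
    (hφ : ∀ t : ℝ, (φ t : ℂ) = ∑ h ∈ S, z h * Complex.exp (2 * Real.pi * Complex.I * (h * t : ℝ))) (hne : ∃ t, φ t ≠ 0) :
    CodimAll θ (rate φ) (fun w N => (∑ n ∈ Finset.range N, φ (w n)) / N) := by
  obtain ⟨H, c, h1, h2⟩ := trig_gp hS hφ
  exact fun k => Pool.Agent.Helper4.KX.trig_fa_of hθ htr (fun A k hA => upper_few hθ A k hA)
    (fun A k hA => lower_few hθ A k hA) H c φ h1 h2 hne k

theorem meas_pi : SparseMeasure Real.pi := by
  obtain ⟨A, C, hC, h⟩ := Pool.Agent.Helper34.PM.meas_pi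
  exact fun k => ⟨A, C, hC, fun d H P hP hd _ hH => h d H P hP hd hH⟩

theorem result :
    (∀ θ : ℝ, 1 < θ → SparseMeasure θ →
      -- discrepancy
      CodimAll θ rateD disc ∧
      -- means of a Lipschitz function
      (∀ (φ : ℝ → ℝ) (K : ℝ), (∀ t, φ (t + 1) = φ t) → (∀ s t, |φ s - φ t| ≤ K * |s - t|) →
        (∫ t in (0 : ℝ)..1, φ t = 0) → (∃ t, φ t ≠ 0) →
        CodimAll θ (rate φ) (fun w N => (∑ n ∈ Finset.range N, φ (w n)) / N))) ∧
    (∀ θ : ℝ, 1 < θ → Transcendental ℤ θ →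
      -- Weyl sums
      CodimAll θ (rate fun t => Real.cos (2 * Real.pi * t))
        (fun w N => ‖∑ n ∈ Finset.range N, Complex.exp (2 * Real.pi * Complex.I * (w n : ℝ))‖ / N) ∧
      -- means of a trigonometric polynomial
      ∀ (φ : ℝ → ℝ) (S : Finset ℤ) (z : ℤ → ℂ), 0 ∉ S →
        (∀ t : ℝ, (φ t : ℂ) = ∑ h ∈ S, z h * Complex.exp (2 * Real.pi * Complex.I * (h * t : ℝ))) → (∃ t, φ t ≠ 0) →
        CodimAll θ (rate φ) (fun w N => (∑ n ∈ Finset.range N, φ (w n)) / N)) ∧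
    -- the numbers `θ`
    ((∀ α : ℝ, IsAlgebraic ℤ α → α ≠ 0 → ∀ r : ℚ, r ≠ 0 →
        SparseMeasure (α * Real.exp r) ∧ SparseMeasure (α * Real.pi ^ (r : ℝ))) ∧
      ∀ᵐ θ : ℝ, SparseMeasure θ) ∧
    -- the rates
    (∀ δ : ℝ, 0 < δ → δ ≤ 1 / 8 → |rateD δ - (2 * δ ^ 2 + 4 / 9 * δ ^ 4)| ≤ 16384 * δ ^ 6) ∧
    (∀ (φ : ℝ → ℝ) (K : ℝ), (∀ t, φ (t + 1) = φ t) → (∀ s t, |φ s - φ t| ≤ K * |s - t|) →
      (∫ t in (0 : ℝ)..1, φ t = 0) → (∃ t, φ t ≠ 0) → ∃ C δ₀ : ℝ, 0 < C ∧ 0 < δ₀ ∧ ∀ δ, 0 < δ → δ ≤ δ₀ →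
        |rate φ δ - δ ^ 2 / (2 * ∫ t in (0 : ℝ)..1, φ t ^ 2)| ≤ C * δ ^ 3) := by
  refine ⟨fun θ hθ hm => ⟨codim_disc hθ hm, fun φ K hper hlip hmean hne => codim_mean hθ hm hper hlip hmean hne⟩,
    fun θ hθ htr => ⟨codim_weyl hθ htr, fun φ S z hS hφ hne => codim_trig hθ htr hS hφ hne⟩,
    ⟨fun α hα h0 r hr => ⟨Pool.Agent.Helper95.KX.smeas_exp hα h0 hr,
      Pool.Agent.Helper95.KX.smeas_class Real.pi_pos meas_pi hα h0 hr⟩, Pool.Agent.Helper64.KX.smeas_ae⟩, fun δ h0 h1 => Pool.Agent.Helper59.GP.rateD_exp h0 h1,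
    fun φ K hper hlip hmean hne => Pool.Agent.Helper59.GP.rate_lip hper hlip hmean hne⟩

end Pool.Agent.Results.MP_9056e9_nt.MultiplesAllOrders
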