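import Pool.Agent.Helper78.KD.NearBdd

/-!
# Dimensions of the deviation sets near a base

`u n x = r x * x ^ (n + 1) + c n` on an open set close to the base `x₀`, or `u n x = x * x₀ ^ (n + 1) + c n`.
-/

set_option autoImplicit false

namespace Pool.Agent.Results.MP_9056e9_nt.ModerateDeviations

open MeasureTheory Set Filter Topology

/-- discrepancy of the first `N` terms modulo one -/
noncomputable def disc (u : ℕ → ℝ) (N : ℕ) : ℝ :=
  sSup {r : ℝ | ∃ α β : ℝ, 0 ≤ α ∧ α < β ∧ β ≤ 1 ∧ r =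
    |(((Finset.range N).filter (fun n => α ≤ Int.fract (u n) ∧ Int.fract (u n) < β)).card : ℝ) / N - (β - α)|}

/-- the families: `r x * x ^ (n + 1) + c n` on an open set within `ρ` of `x₀`, where `r > 0` is of class `C²`, and
`x * x₀ ^ (n + 1) + c n` on an open set -/
def Near (x₀ ρ : ℝ) (O : Set ℝ) (u : ℕ → ℝ → ℝ) : Prop :=
  IsOpen O ∧ O.Nonempty ∧ ∃ c : ℕ → ℝ,
    ((∃ r : ℝ → ℝ, ContDiffOn ℝ 2 r O ∧ (∀ x ∈ O, 0 < r x) ∧ O ⊆ Ioo (x₀ - ρ) (x₀ + ρ) ∧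
        u = fun n x => r x * x ^ (n + 1) + c n) ∨
      u = fun n x => x * x₀ ^ (n + 1) + c n)

/-- near the base `x₀` the deviation sets of the functional `F` have the codimension `κ δ ^ 2` up to a factor close
to one: `1 - (1 + ε) κ δ ^ 2` is at most the dimension of the `x ∈ O` with lower limit of `F (u n x)` at least `δ`, and
the dimension of the `x ∈ O` with upper limit at least `δ` is at most `1 - (1 - ε) κ δ ^ 2`, for all small `δ` and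
all families close to `x₀` -/
def Codim (x₀ κ : ℝ) (F : (ℕ → ℝ) → ℕ → ℝ) : Prop :=
  ∀ ε : ℝ, 0 < ε → ∃ δ₀ : ℝ, 0 < δ₀ ∧ ∃ ρ : ℝ, 0 < ρ ∧ ∀ (O : Set ℝ) (u : ℕ → ℝ → ℝ), Near x₀ ρ O u →
    ∀ δ : ℝ, 0 < δ → δ ≤ δ₀ →
      ENNReal.ofReal (1 - (1 + ε) * κ * δ ^ 2) ≤ dimH {x | x ∈ O ∧ δ ≤ liminf (F fun n => u n x) atTop} ∧
      dimH {x | x ∈ O ∧ δ ≤ limsup (F fun n => u n x) atTop} ≤ ENNReal.ofReal (1 - (1 - ε) * κ * δ ^ 2)

/-- `Φ` is a real trigonometric polynomial of `k` variables with the frequencies in `S` and the coefficients `z` -/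
def TrigP (k : ℕ) (Φ : (Fin k → ℝ) → ℝ) (S : Finset (Fin k → ℤ)) (z : (Fin k → ℤ) → ℂ) : Prop :=
  ∀ t, (Φ t : ℂ) = ∑ h ∈ S, z h * Complex.exp (2 * Real.pi * (∑ i, (h i : ℝ) * t i : ℝ) * Complex.I)

/-- the mean of `Φ (t 0, ..., t (k-1)) Φ (t d, ..., t (d+k-1))` over independent uniform variables -/
noncomputable def cov (k : ℕ) (Φ : (Fin k → ℝ) → ℝ) (d : Fin k) : ℝ :=
  ∫ t in Icc (0 : Fin (2 * k) → ℝ) 1,
    Φ (fun i : Fin k => t ⟨i, by omega⟩) * Φ (fun i : Fin k => t ⟨i + d, by omega⟩)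

/-- the limit variance of the sums of `Φ` along the windows of a sequence of independent uniform variables -/
noncomputable def variance (k : ℕ) (Φ : (Fin k → ℝ) → ℝ) : ℝ :=
  ∑ d : Fin k, (if (d : ℕ) = 0 then 1 else 2) * cov k Φ d

theorem codim_of {x₀ κ : ℝ} {F : (ℕ → ℝ) → ℕ → ℝ} (h : Pool.Agent.Helper78.KD.RateNear x₀ κ F) : Codim x₀ κ F := by
  intro ε hε
  obtain ⟨δ₀, h0, ρ, h1, h2⟩ := h ε hε
  exact ⟨δ₀, h0, ρ, h1, fun O u hu δ h3 h4 => h2 O u hu δ h3 h4⟩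

theorem result (x₀ : ℝ) (hx₀ : 1 < x₀) :
    -- (1) Weyl sums
    Codim x₀ (1 / Real.log x₀) (fun w N => ‖∑ n ∈ Finset.range N, Complex.exp (2 * Real.pi * Complex.I * (w n : ℝ))‖ / N) ∧
    -- (2) irrational powers: discrepancy, Lipschitz functions
    ((∀ k : ℕ, 1 ≤ k → Irrational (x₀ ^ k)) → Codim x₀ (2 / Real.log x₀) disc ∧
      ∀ (φ : ℝ → ℝ) (K σ : ℝ), (∀ t, φ (t + 1) = φ t) → (∀ s t, |φ s - φ t| ≤ K * |s - t|) →
        (∫ t in (0 : ℝ)..1, φ t = 0) → (∫ t in (0 : ℝ)..1, φ t ^ 2 = σ) → 0 < σ →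
        Codim x₀ (1 / (2 * σ * Real.log x₀)) (fun w N => (∑ n ∈ Finset.range N, φ (w n)) / N)) ∧
    -- (3) transcendental bases: windows
    (Transcendental ℤ x₀ → ∀ (k : ℕ) (Φ : (Fin k → ℝ) → ℝ) (S : Finset (Fin k → ℤ)) (z : (Fin k → ℤ) → ℂ) (σ : ℝ),
      0 ∉ S → TrigP k Φ S z → variance k Φ = σ → 0 < σ →
      Codim x₀ (1 / (2 * σ * Real.log x₀)) (fun w N => (∑ n ∈ Finset.range N, Φ (fun i : Fin k => w (n + i))) / N)) := by
  refine ⟨codim_of (Pool.Agent.Helper78.KD.near_weyl hx₀), fun hirr => ⟨codim_of (Pool.Agent.Helper78.KD.near_disc hx₀ hirr),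
    fun φ K σ hper hlip hmean hσ hσ0 => codim_of (Pool.Agent.Helper78.KD.near_mean hx₀ hirr hper hlip hmean hσ hσ0)⟩,
    fun htr k Φ S z σ hS hΦ hσ hσ0 => codim_of (Pool.Agent.Helper78.KD.near_win hx₀ htr k Φ S z hS (fun t => ?_) ?_ hσ0)⟩
  · rw [hΦ t]
    refine Finset.sum_congr rfl fun h _ => ?_
    unfold Pool.Agent.Helper44.KW.ex
    rfl
  · exact hσ

end Pool.Agent.Results.MP_9056e9_nt.ModerateDeviations
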